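import Pool.Agent.Work.MP_db9399_owc_helper89.Hold2

/-!
# MP_db9399, OWN2F (helper35): OWN2 with the old colours `c1` of the vertices which got a forbidden
colour

`c1` = the colours before the repair of the forbidden colours. The forbidden sets do not enter the
tests of `c1`.
-/

set_option autoImplicit false

namespace Pool.Agent.Work.MP_db9399_h.helper35

open Finset Classical
open Pool.Agent.Work.MP_db9399_all (nb mis pr DepOnI)
open Pool.Agent.Work.MP_db9399_en
open Pool.Agent.Work.MP_db9399_ow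
open Pool.Agent.Work.MP_db9399_ow.helper79
open Pool.Agent.Work.MP_db9399_owc
open Pool.Agent.Work.MP_db9399_owc.helper89

universe u

/-- **OWN2F** -/
def Stmt_OWN2F : Prop :=
  ∀ (C K1 K : ℕ), ∃ (C' N0 N x0 : ℕ),
    ∀ {V : Type u} [Fintype V] (G : SimpleGraph V) (d x P : ℕ) (J R Y : Type u) [Fintype J]
      [Fintype R] [Fintype Y] (S : J → Finset V) (g : J → Fin P → V → ℝ) (e : J → ℝ)
      (Q : R → Finset (Fin P × V)) (Z : Y → Finset V) (Fb : V → Finset (Fin P)), x0 ≤ x →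
      Real.log d ≤ x →
      x ^ N ≤ d → P ≤ 2 * d → (d : ℝ) - d / (x : ℝ) ^ (C + 2 * K1 + 8) ≤ P →
      (∀ v, |((nb G v).card : ℝ) - d| ≤ d / (x : ℝ) ^ N0) →
      (∀ v, (d : ℝ) ^ 2 / (x : ℝ) ^ K1 ≤ ((mis G (nb G v)).card : ℝ)) →
      Sig ((x : ℝ) ^ K / d) (Real.exp ((x : ℝ) ^ C)) S g (fun j => e j / d) →
      Upt (d * (x : ℝ) ^ K) (Real.exp ((x : ℝ) ^ C)) Q → Cap d Z →
      (∀ v, ((Fb v).card : ℝ) ≤ d / (x : ℝ) ^ (C + 2 * K1 + 8)) →
      ∃ c c1 : V → Fin P, (∀ v w, G.Adj v w → c v ≠ c w) ∧ (∀ v, c v ∉ Fb v) ∧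
        (∀ v, c1 v ≠ c v → c1 v ∈ Fb v) ∧
        (∀ j, ∑ b, |∑ v ∈ univ.filter (fun v => c1 v = b), g j b v| ≤
          1 / (d : ℝ) * ∑ b, |∑ v, g j b v| + 130 * Real.sqrt (e j) + 1 / x) ∧
        (∀ j, ∑ v, |g j (c1 v) v| ≤ 1 / (d : ℝ) * ∑ b, ∑ v, |g j b v| + 1 / x) ∧
        (∀ j, ∑ v ∈ univ.filter (fun v => c1 v ≠ c v), |g j (c v) v| ≤ 1 / x) ∧
        (∀ q, (((Q q).filter (fun y => c y.2 = y.1 ∨ c1 y.2 = y.1)).card : ℝ) ≤ (x : ℝ) ^ C') ∧
        ∀ y b, (((Z y).filter (fun v => c v = b)).card : ℝ) ≤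
          Real.log d ^ 4 * (1 + ((Z y).card : ℝ) / d)

theorem sig_sum {V : Type u} [Fintype V] {P : ℕ} {J1 J2 : Type u} [Fintype J1] [Fintype J2]
    {K W1 W2 : ℝ} {S1 : J1 → Finset V}
    {S2 : J2 → Finset V} {g1 : J1 → Fin P → V → ℝ} {g2 : J2 → Fin P → V → ℝ} {e1 : J1 → ℝ}
    {e2 : J2 → ℝ} {d : ℝ} (h1 : Sig K W1 S1 g1 (fun j => e1 j / d))
    (h2 : Sig K W2 S2 g2 (fun j => e2 j / d)) (hW1 : 0 ≤ W1)
    (hW2 : 0 ≤ W2) :
    Sig K (W1 + W2) (Sum.elim S1 S2) (Sum.elim g1 g2) (fun j => Sum.elim e1 e2 j / d) := by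
  refine ⟨?_, ?_, ?_, ?_, ?_, ?_, ?_⟩
  · rintro (j | j) b v
    · exact h1.sup j b v
    · exact h2.sup j b v
  · rintro (j | j) b v
    · exact h1.le j b v
    · exact h2.le j b v
  · rintro (j | j) b
    · exact h1.sum j b
    · exact h2.sum j b
  · rintro (j | j) b
    · exact h1.sq j b
    · exact h2.sq j b
  · rintro (j | j)
    · exact h1.e0 j
    · exact h2.e0 j
  · rintro (j | j)
    · exact (h1.card j).trans (by linarith)
    · exact (h2.card j).trans (by linarith)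
  · intro v
    have e : (univ.filter fun j : J1 ⊕ J2 => v ∈ Sum.elim S1 S2 j) =
        (univ.filter fun j => v ∈ S1 j).disjSum (univ.filter fun j => v ∈ S2 j) := by
      ext j
      cases j with
      | inl j => simp
      | inr j => simp
    rw [e, Finset.card_disjSum]
    push_cast
    exact add_le_add (h1.mul v) (h2.mul v)

theorem sig_mono {V : Type u} [Fintype V] {P : ℕ} {J1 : Type u} [Fintype J1] {K W W' : ℝ}
    {S1 : J1 → Finset V} {g1 : J1 → Fin P → V → ℝ} {e1 : J1 → ℝ} (h1 : Sig K W S1 g1 e1)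
    (hW : W ≤ W') : Sig K W' S1 g1 e1 :=
  ⟨h1.sup, h1.le, h1.sum, h1.sq, h1.e0, fun j => (h1.card j).trans hW,
    fun v => (h1.mul v).trans hW⟩

theorem exp_two {x C : ℕ} (hx : 3 ≤ x) : Real.exp ((x : ℝ) ^ C) + Real.exp ((x : ℝ) ^ (C + 3)) ≤
    Real.exp ((x : ℝ) ^ (C + 4)) := by
  have hx3 : (3 : ℝ) ≤ x := by exact_mod_cast hx
  have h1 : Real.exp ((x : ℝ) ^ C) ≤ Real.exp ((x : ℝ) ^ (C + 3)) :=
    Real.exp_le_exp.2 (pow_le_pow_right₀ (by linarith) (by omega))
  have h2 : (1 : ℝ) ≤ (x : ℝ) ^ (C + 3) := one_le_pow₀ (by linarith)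
  have h3 : (x : ℝ) ^ (C + 3) + 1 ≤ (x : ℝ) ^ (C + 4) := by
    have h4 : (x : ℝ) ^ (C + 4) = (x : ℝ) ^ (C + 3) * x := by ring
    rw [h4]
    nlinarith
  have h4 := Real.exp_le_exp.2 h3
  rw [Real.exp_add] at h4
  have h5 : (2 : ℝ) ≤ Real.exp 1 := by
    have := Real.add_one_le_exp (1 : ℝ)
    linarith
  have h6 : 0 < Real.exp ((x : ℝ) ^ (C + 3)) := Real.exp_pos _
  nlinarith

/-- **OWN2F** from the blocks of OWN2 -/
theorem own2f_of (hI : Stmt_ITER2.{u}) (hS : Stmt_SUBL2.{u}) (hH : Stmt_SSUB.{u})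
    (hL : Stmt_LSTL.{u}) : Stmt_OWN2F.{u} := by
  intro C K1 K
  obtain ⟨C1, N01, N1, x1, hI⟩ := hI (C + 2 * K1 + 8) (C + 4) K K1 (C + 2 * K1 + 10) (by omega)
  obtain ⟨C2, N2, x2, hS⟩ := hS C K K1
  obtain ⟨d3, hH⟩ := hH
  refine ⟨C1 + C2 + 1, N01, N1 + N2 + C + 10, x1 + x2 + d3 + 2000 + ⌈Real.exp 100⌉₊, ?_⟩
  intro V _ G d x P J R Y _ _ _ S g e Q Z Fb hx hlog hxN hP hPd hdeg hmis hSig hUpt hCap hFb
  have hx1 : x1 ≤ x := by omega
  have hx2 : x2 ≤ x := by omega
  have hx16 : 16 ≤ x := by omega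
  have hx16' : (16 : ℝ) ≤ x := by exact_mod_cast hx16
  have hx0 : (0 : ℝ) < x := by linarith
  have hd : 0 < d := lt_of_lt_of_le (Nat.pow_pos (by omega)) hxN
  have hd0 : (0 : ℝ) < d := by exact_mod_cast hd
  have hxN1 : x ^ N1 ≤ d := (Nat.pow_le_pow_right (by omega) (by omega)).trans hxN
  have hxN2 : x ^ N2 ≤ d := (Nat.pow_le_pow_right (by omega) (by omega)).trans hxN
  have hpow : ∀ n : ℕ, (0 : ℝ) < (x : ℝ) ^ n := fun n => by positivity
  have hpow1 : ∀ n : ℕ, (1 : ℝ) ≤ (x : ℝ) ^ n := fun n => one_le_pow₀ (by linarith)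
  have hdeg2 : ∀ v, ((nb G v).card : ℝ) ≤ 2 * d := by
    intro v
    have h1 := (abs_le.1 (hdeg v)).2
    have h2 : (d : ℝ) / (x : ℝ) ^ N01 ≤ d := div_le_self hd0.le (hpow1 _)
    linarith
  have hdeg2' : ∀ v, (nb G v).card ≤ 2 * d := fun v => by exact_mod_cast hdeg2 v
  have hCe : Real.exp ((x : ℝ) ^ C) ≤ Real.exp ((x : ℝ) ^ (C + 4)) :=
    Real.exp_le_exp.2 (pow_le_pow_right₀ (by linarith) (by omega))
  have hsg0 := sig_gg2 G d x C K g Fb e S Z (by omega) hd hlog hP hdeg2 hSig hCap fun v => by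
    have h1 := hFb v
    exact h1.trans (div_le_self hd0.le (hpow1 _))
  have hsg := sig_mono (sig_sum hSig hsg0 (Real.exp_pos _).le (Real.exp_pos _).le)
    (exp_two (x := x) (C := C) (by omega))
  have hUpt' : Upt (d * (x : ℝ) ^ K) (Real.exp ((x : ℝ) ^ (C + 4))) Q :=
    ⟨hUpt.card, fun v => (hUpt.mul v).trans hCe⟩
  obtain ⟨U, c, Bd, i1, i2, i3, m4, m5, m6, i7, j1, j2, m3, m7, j5⟩ := hI G d x P
    (J ⊕ ((J ⊕ (V ⊕ (J × Fin P))) ⊕ (Y ⊕ Y))) R Y
    (Sum.elim S (sg2 (P := P) G S Z)) (Sum.elim g (gg2 G d x K g Fb Z))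
    (Sum.elim e (eg2 (V := V) (P := P) (Y := Y) x K e)) Q Z
    (fun y => Sum.inr (Sum.inr (Sum.inl y))) hx1 hlog hxN1 hP hPd hdeg hmis hsg hUpt' hCap
    (fun y b v => rfl)
  have k4 : ∀ t b, ∑ v ∈ U, |gg2 G d x K g Fb Z t b v| ≤ 4 / (x : ℝ) ^ (C + 2 * K1 + 8) :=
    fun t b => m4 (Sum.inr t) b
  have k6 : ∀ t, ∑ v ∈ univ.filter (fun v => v ∉ U), |gg2 G d x K g Fb Z t (c v) v| ≤
      1 / (d : ℝ) * ∑ b, ∑ v, |gg2 G d x K g Fb Z t b v| +
        1 / (x : ℝ) ^ (C + 2 * K1 + 10) := fun t => m6 (Sum.inr t)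
  have k3 : ∀ t b, ∑ v ∈ Bd, |gg2 G d x K g Fb Z t b v| ≤ 1 / (x : ℝ) ^ (C + 2 * K1 + 10) :=
    fun t b => m3 (Sum.inr t) b
  have n5 : ∀ j, ∑ b, |∑ v ∈ univ.filter (fun v => v ∉ U ∧ c v = b), g j b v| ≤
      1 / (d : ℝ) * ∑ b, |∑ v, g j b v| +
        130 * Real.sqrt (e j) + 1 / (x : ℝ) ^ (C + 2 * K1 + 10) := fun j =>
    m5 (Sum.inl j)
  have n6 : ∀ j, ∑ v ∈ univ.filter (fun v => v ∉ U), |g j (c v) v| ≤
      1 / (d : ℝ) * ∑ b, ∑ v, |g j b v| + 1 / (x : ℝ) ^ (C + 2 * K1 + 10) := fun j =>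
    m6 (Sum.inl j)
  have n7 : ∀ j, ∑ v ∈ Bd, |g j (c v) v| ≤ 1 / (x : ℝ) ^ (C + 2 * K1 + 10) := fun j =>
    m7 (Sum.inl j)
  have i4 : ∀ j b, ∑ v ∈ U, |gg G d g Fb j b v| ≤ 4 / (x : ℝ) ^ (C + 2 * K1 + 8) := fun j b =>
    k4 (Sum.inl j) b
  have i6 : ∀ j, ∑ v ∈ univ.filter (fun v => v ∉ U), |gg G d g Fb j (c v) v| ≤
      1 / (d : ℝ) * ∑ b, ∑ v, |gg G d g Fb j b v| + 1 / (x : ℝ) ^ (C + 2 * K1 + 10) := fun j =>
    k6 (Sum.inl j)
  have j3 : ∀ j b, ∑ v ∈ Bd, |gg G d g Fb j b v| ≤ 1 / (x : ℝ) ^ (C + 2 * K1 + 10) := fun j b =>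
    k3 (Sum.inl j) b
  -- numbers
  set B : ℕ := C + 2 * K1 + 8 with hB
  have hxB1 : (x : ℝ) ^ B = (x : ℝ) ^ (C + 2 * K1 + 7) * x := by
    rw [hB, ← pow_succ]
  have hxE : (1 : ℝ) / (x : ℝ) ^ (C + 2 * K1 + 10) ≤ 1 / (x : ℝ) ^ B :=
    one_div_le_one_div_of_le (hpow _) (pow_le_pow_right₀ (by linarith) (by omega))
  have hB16 : 16 * (1 / (x : ℝ) ^ B) ≤ 1 / (x : ℝ) ^ (C + 2 * K1 + 7) := by
    rw [hxB1, mul_one_div, div_le_div_iff₀ (by positivity) (hpow _)]
    nlinarith [hpow (C + 2 * K1 + 7)]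
  have hxE2 : (1 : ℝ) / (x : ℝ) ^ (C + 2 * K1 + 10) ≤ 1 / (4 * x) := by
    refine one_div_le_one_div_of_le (by positivity) ?_
    calc 4 * (x : ℝ) ≤ (x : ℝ) ^ 2 := by nlinarith
      _ ≤ _ := pow_le_pow_right₀ (by linarith) (by omega)
  have hP0 : 0 < P := by
    have h1 : (d : ℝ) / (x : ℝ) ^ B ≤ d / 2 :=
      div_le_div_of_nonneg_left hd0.le (by norm_num) (by
        have := hpow1 (C + 2 * K1 + 7)
        rw [hxB1]
        nlinarith)
    have h2 : (0 : ℝ) < P := by linarith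
    exact_mod_cast h2
  -- the vertices to be coloured again
  set U0 : Finset V := U ∪ univ.filter (fun v => v ∉ U ∧ c v ∈ Fb v) with hU0
  set U' : Finset V := U0 ∪ Bd with hU'
  have hU'mem : ∀ v, v ∉ U' ↔ (v ∉ U ∧ c v ∉ Fb v) ∧ v ∉ Bd := by
    intro v
    simp only [hU', hU0, mem_union, mem_filter, mem_univ, true_and]
    tauto
  have hUU : U ⊆ U' := subset_union_left.trans subset_union_left
  -- sums over U'
  have hsplit' : ∀ F : V → ℝ, (∀ v, 0 ≤ F v) → ∑ v ∈ U', F v ≤ ∑ v ∈ U0, F v + ∑ v ∈ Bd, F v := by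
    intro F hF
    have h1 := sum_union_inter (s₁ := U0) (s₂ := Bd) (f := F)
    have h2 : 0 ≤ ∑ v ∈ U0 ∩ Bd, F v := sum_nonneg fun v _ => hF v
    rw [hU']
    linarith
  have hsplit : ∀ F : V → ℝ, ∑ v ∈ U0, F v = ∑ v ∈ U, F v +
      ∑ v ∈ univ.filter (fun v => v ∉ U), if c v ∈ Fb v then F v else 0 := by
    intro F
    rw [hU0, sum_union]
    · congr 1
      rw [← sum_filter, filter_filter]
    · rw [Finset.disjoint_left]
      intro v hv hv'
      exact (mem_filter.1 hv').2.1 hv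
  -- (i)
  have hi : ∀ v, ((nb G v ∩ U').card : ℝ) ≤ d / (x : ℝ) ^ (C + 2 * K1 + 7) := by
    intro v
    have h0 : ((nb G v ∩ U').card : ℝ) ≤ ((nb G v ∩ U0).card : ℝ) + (nb G v ∩ Bd).card := by
      have h1 : nb G v ∩ U' ⊆ (nb G v ∩ U0) ∪ (nb G v ∩ Bd) := by
        rw [hU', inter_union_distrib_left]
      exact_mod_cast (card_le_card h1).trans (card_union_le _ _)
    have h1 : ((nb G v ∩ U0).card : ℝ) = ∑ w ∈ U0, if w ∈ nb G v then (1 : ℝ) else 0 := by
      rw [← sum_filter, sum_const, nsmul_eq_mul, mul_one]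
      congr 2
      ext w
      simp only [mem_inter, mem_filter]
      tauto
    have h2 : ((nb G v ∩ U).card : ℝ) = ∑ w ∈ U, if w ∈ nb G v then (1 : ℝ) else 0 := by
      rw [← sum_filter, sum_const, nsmul_eq_mul, mul_one]
      congr 2
      ext w
      simp only [mem_inter, mem_filter]
      tauto
    refine h0.trans ?_
    rw [h1, hsplit, ← h2]
    have h3 := i6 (Sum.inr (Sum.inl v))
    have h4 : ∑ w ∈ univ.filter (fun w => w ∉ U), |gg G d g Fb (Sum.inr (Sum.inl v)) (c w) w| =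
        1 / (2 * d) * ∑ w ∈ univ.filter (fun w => w ∉ U),
          if c w ∈ Fb w then (if w ∈ nb G v then (1 : ℝ) else 0) else 0 := by
      rw [mul_sum]
      refine sum_congr rfl fun w _ => ?_
      simp only [gg]
      by_cases hw : w ∈ nb G v
      · by_cases hc : c w ∈ Fb w
        · simp only [hw, hc, and_self, if_true, mul_one]
          exact abs_of_pos (by positivity)
        · simp only [hw, hc, and_false, if_false, mul_zero, abs_zero]
      · simp only [hw, false_and, if_false, ite_self, mul_zero, abs_zero]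
    have h5 : ∑ b, ∑ w, |gg G d g Fb (Sum.inr (Sum.inl v)) b w| ≤ d / (x : ℝ) ^ B := by
      rw [sum_comm]
      have h6 : ∀ w, ∑ b, |gg G d g Fb (Sum.inr (Sum.inl v)) b w| ≤
          if w ∈ nb G v then 1 / (2 * d) * (d / (x : ℝ) ^ B) else 0 := by
        intro w
        by_cases hw : w ∈ nb G v
        · rw [if_pos hw]
          have h7 : ∀ b, |gg G d g Fb (Sum.inr (Sum.inl v)) b w| =
              if b ∈ Fb w then 1 / (2 * (d : ℝ)) else 0 := by
            intro b
            simp only [gg, hw, true_and]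
            split_ifs
            · exact abs_of_pos (by positivity)
            · exact abs_zero
          rw [sum_congr rfl fun b _ => h7 b, sum_ite_mem, univ_inter, sum_const, nsmul_eq_mul,
            mul_comm]
          exact mul_le_mul_of_nonneg_left (hFb w) (by positivity)
        · rw [if_neg hw]
          refine le_of_eq (sum_eq_zero fun b _ => ?_)
          simp only [gg, hw, false_and, if_false, abs_zero]
      refine (sum_le_sum fun w _ => h6 w).trans ?_
      rw [sum_ite_mem, univ_inter, sum_const, nsmul_eq_mul]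
      have h8 := hdeg2 v
      have h9 : 0 ≤ 1 / (2 * (d : ℝ)) * (d / (x : ℝ) ^ B) := by positivity
      calc ((nb G v).card : ℝ) * (1 / (2 * d) * (d / (x : ℝ) ^ B)) ≤
          2 * d * (1 / (2 * d) * (d / (x : ℝ) ^ B)) := mul_le_mul_of_nonneg_right h8 h9
        _ = d / (x : ℝ) ^ B := by
            field_simp
    have h10 : 1 / (d : ℝ) * ∑ b, ∑ w, |gg G d g Fb (Sum.inr (Sum.inl v)) b w| ≤
        1 / (x : ℝ) ^ B := by
      calc 1 / (d : ℝ) * ∑ b, ∑ w, |gg G d g Fb (Sum.inr (Sum.inl v)) b w| ≤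
          1 / (d : ℝ) * (d / (x : ℝ) ^ B) := mul_le_mul_of_nonneg_left h5 (by positivity)
        _ = 1 / (x : ℝ) ^ B := by
            field_simp
    rw [h4] at h3
    have h11 := i2 v
    set Y := ∑ w ∈ univ.filter (fun w => w ∉ U),
      if c w ∈ Fb w then (if w ∈ nb G v then (1 : ℝ) else 0) else 0 with hY
    have h12 : 1 / (2 * (d : ℝ)) * Y ≤ 2 * (1 / (x : ℝ) ^ B) := by linarith
    have h13 : Y ≤ 4 * d * (1 / (x : ℝ) ^ B) := by
      have h14 : Y = 2 * d * (1 / (2 * (d : ℝ)) * Y) := by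
        field_simp
      rw [h14]
      calc 2 * (d : ℝ) * (1 / (2 * (d : ℝ)) * Y) ≤ 2 * d * (2 * (1 / (x : ℝ) ^ B)) :=
          mul_le_mul_of_nonneg_left h12 (by positivity)
        _ = _ := by ring
    have h15 : 4 * (d : ℝ) / (x : ℝ) ^ B = 4 * d * (1 / (x : ℝ) ^ B) := by ring
    rw [h15] at h11
    have h16 : (d : ℝ) / (x : ℝ) ^ (C + 2 * K1 + 7) = d * (1 / (x : ℝ) ^ (C + 2 * K1 + 7)) := by
      ring
    rw [h16]
    have h17 := j2 v
    have h18 : (d : ℝ) / (x : ℝ) ^ (C + 2 * K1 + 10) = d * (1 / (x : ℝ) ^ (C + 2 * K1 + 10)) := by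
      ring
    rw [h18] at h17
    have h19 := mul_le_mul_of_nonneg_left hxE hd0.le
    have h20 := mul_le_mul_of_nonneg_left hB16 hd0.le
    have h21 : 0 ≤ (d : ℝ) * (1 / (x : ℝ) ^ B) := by positivity
    linarith
  -- (ii)
  set L : V → Finset (Fin P) := fun v => univ.filter (fun b => b ∉ Fb v ∧
    ∀ w ∈ nb G v, w ∉ U' → c w ≠ b) with hLdef
  have hii : ∀ v ∈ U', (d : ℝ) / (2 * (x : ℝ) ^ (2 * K1 + 1)) ≤ ((L v).card : ℝ) := by
    intro v _
    have h1 := i3 v
    have h2 : univ.filter (fun b => ∀ w ∈ nb G v, w ∉ U → c w ≠ b) ⊆ L v ∪ Fb v := by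
      intro b hb
      rw [mem_filter] at hb
      rw [mem_union]
      by_cases hbF : b ∈ Fb v
      · exact Or.inr hbF
      · left
        simp only [hLdef, mem_filter, mem_univ, true_and]
        exact ⟨hbF, fun w hw hwU => hb.2 w hw fun h => hwU (hUU h)⟩
    have h3 : ((univ.filter (fun b => ∀ w ∈ nb G v, w ∉ U → c w ≠ b)).card : ℝ) ≤
        (L v).card + (Fb v).card := by
      exact_mod_cast (card_le_card h2).trans (card_union_le _ _)
    have h4 := hFb v
    have h5 : (d : ℝ) / (x : ℝ) ^ B ≤ d / (2 * (x : ℝ) ^ (2 * K1 + 1)) := by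
      refine div_le_div_of_nonneg_left hd0.le (by positivity) ?_
      calc 2 * (x : ℝ) ^ (2 * K1 + 1) ≤ x * (x : ℝ) ^ (2 * K1 + 1) :=
          mul_le_mul_of_nonneg_right (by linarith) (hpow _).le
        _ = (x : ℝ) ^ (2 * K1 + 2) := by ring
        _ ≤ (x : ℝ) ^ B := pow_le_pow_right₀ (by linarith) (by omega)
    have h6 : (d : ℝ) / (x : ℝ) ^ (2 * K1 + 1) = 2 * (d / (2 * (x : ℝ) ^ (2 * K1 + 1))) := by
      field_simp
    linarith
  -- (iii)
  have hiii : ∀ j b, ∑ v ∈ U', |g j b v| ≤ 1 / (x : ℝ) ^ (C + 2 * K1 + 7) := by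
    intro j b
    refine (hsplit' _ fun v => abs_nonneg _).trans ?_
    rw [hsplit]
    have k1 := j3 (Sum.inl j) b
    have k2 := j3 (Sum.inr (Sum.inr (j, b))) b
    have k3' : ∑ v ∈ Bd, |g j b v| = ∑ v ∈ Bd, |gg G d g Fb (Sum.inl j) b v| +
        ∑ v ∈ Bd, |gg G d g Fb (Sum.inr (Sum.inr (j, b))) b v| := by
      rw [← sum_add_distrib]
      refine sum_congr rfl fun v _ => ?_
      simp only [gg]
      split_ifs
      · rw [abs_zero, abs_abs, zero_add]
      · rw [abs_zero, add_zero]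
    have h1 := i4 (Sum.inl j) b
    have h2 := i4 (Sum.inr (Sum.inr (j, b))) b
    have h3 : ∑ v ∈ U, |g j b v| = ∑ v ∈ U, |gg G d g Fb (Sum.inl j) b v| +
        ∑ v ∈ U, |gg G d g Fb (Sum.inr (Sum.inr (j, b))) b v| := by
      rw [← sum_add_distrib]
      refine sum_congr rfl fun v _ => ?_
      simp only [gg]
      split_ifs
      · rw [abs_zero, abs_abs, zero_add]
      · rw [abs_zero, add_zero]
    have h4 := i6 (Sum.inr (Sum.inr (j, b)))
    have h5 : ∑ v ∈ univ.filter (fun v => v ∉ U), (if c v ∈ Fb v then |g j b v| else 0) =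
        ∑ v ∈ univ.filter (fun v => v ∉ U),
          |gg G d g Fb (Sum.inr (Sum.inr (j, b))) (c v) v| := by
      refine sum_congr rfl fun v _ => ?_
      simp only [gg]
      split_ifs
      · rw [abs_abs]
      · rw [abs_zero]
    have h6 : ∑ b', ∑ v, |gg G d g Fb (Sum.inr (Sum.inr (j, b))) b' v| ≤ d / (x : ℝ) ^ B := by
      rw [sum_comm]
      have h7 : ∀ v, ∑ b', |gg G d g Fb (Sum.inr (Sum.inr (j, b))) b' v| ≤
          |g j b v| * (d / (x : ℝ) ^ B) := by
        intro v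
        have h8 : ∀ b', |gg G d g Fb (Sum.inr (Sum.inr (j, b))) b' v| =
            if b' ∈ Fb v then |g j b v| else 0 := by
          intro b'
          simp only [gg]
          split_ifs
          · rw [abs_abs]
          · rw [abs_zero]
        rw [sum_congr rfl fun b' _ => h8 b', sum_ite_mem, univ_inter, sum_const, nsmul_eq_mul,
          mul_comm]
        exact mul_le_mul_of_nonneg_left (hFb v) (abs_nonneg _)
      refine (sum_le_sum fun v _ => h7 v).trans ?_
      rw [← sum_mul]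
      have h9 := hSig.sum j b
      have h10 : 0 ≤ (d : ℝ) / (x : ℝ) ^ B := by positivity
      nlinarith
    have h10 : 1 / (d : ℝ) * ∑ b', ∑ v, |gg G d g Fb (Sum.inr (Sum.inr (j, b))) b' v| ≤
        1 / (x : ℝ) ^ B := by
      calc 1 / (d : ℝ) * ∑ b', ∑ v, |gg G d g Fb (Sum.inr (Sum.inr (j, b))) b' v| ≤
          1 / (d : ℝ) * (d / (x : ℝ) ^ B) := mul_le_mul_of_nonneg_left h6 (by positivity)
        _ = 1 / (x : ℝ) ^ B := by
            field_simp
    rw [h5, h3]
    have h11 : (4 : ℝ) / (x : ℝ) ^ B = 4 * (1 / (x : ℝ) ^ B) := by ring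
    rw [h11] at h1 h2
    have h12 : (0 : ℝ) ≤ 1 / (x : ℝ) ^ B := by positivity
    linarith
  -- (iv)
  have hZt : ∀ y v, 0 ≤ Zt d x K Z y v := by
    intro y v
    unfold Zt
    split_ifs
    · positivity
    · exact le_rfl
  have hiv : ∀ y, ((Z y ∩ U').card : ℝ) ≤ (d + (Z y).card) / (x : ℝ) ^ (C + 2 * K1 + 7) := by
    intro y
    set mx : ℝ := max ((Z y).card : ℝ) ((d : ℝ) / (x : ℝ) ^ K) with hmx
    have hmx0 : 0 < mx := lt_of_lt_of_le (div_pos hd0 (hpow K)) (le_max_right _ _)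
    have hmxle : mx ≤ d + (Z y).card := by
      have h8 : (0 : ℝ) ≤ (Z y).card := Nat.cast_nonneg _
      refine max_le (by linarith) ?_
      have h7 : (d : ℝ) / (x : ℝ) ^ K ≤ d := div_le_self hd0.le (hpow1 K)
      linarith
    have h1 : ∑ v ∈ U', Zt d x K Z y v = ((Z y ∩ U').card : ℝ) * (1 / mx) := by
      unfold Zt
      rw [← sum_filter, sum_const, nsmul_eq_mul]
      congr 2
      apply congrArg
      ext v
      simp only [mem_filter, mem_inter]
      tauto
    have h2 := hsplit' (fun v => Zt d x K Z y v) (hZt y)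
    rw [hsplit] at h2
    have b0 : Fin P := ⟨0, hP0⟩
    have h3 : ∑ v ∈ U, Zt d x K Z y v ≤ 4 / (x : ℝ) ^ B := by
      refine le_trans (le_of_eq (sum_congr rfl fun v _ => ?_)) (k4 (Sum.inr (Sum.inl y)) b0)
      show _ = |Zt d x K Z y v|
      rw [abs_of_nonneg (hZt y v)]
    have h4 : ∑ v ∈ Bd, Zt d x K Z y v ≤ 1 / (x : ℝ) ^ (C + 2 * K1 + 10) := by
      refine le_trans (le_of_eq (sum_congr rfl fun v _ => ?_)) (k3 (Sum.inr (Sum.inl y)) b0)
      show _ = |Zt d x K Z y v|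
      rw [abs_of_nonneg (hZt y v)]
    have hz1 : ∑ v, Zt d x K Z y v ≤ 1 := by
      have h5 : ∑ v, Zt d x K Z y v = ((Z y).card : ℝ) * (1 / mx) := by
        unfold Zt
        rw [← sum_filter, sum_const, nsmul_eq_mul]
        congr 2
        apply congrArg
        ext v
        simp
      rw [h5, mul_one_div, div_le_one hmx0]
      exact le_max_left _ _
    have h5 : ∑ v ∈ univ.filter (fun v => v ∉ U), (if c v ∈ Fb v then Zt d x K Z y v else 0) ≤
        2 * (1 / (x : ℝ) ^ B) := by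
      have h6 := k6 (Sum.inr (Sum.inr y))
      have h7 : ∑ v ∈ univ.filter (fun v => v ∉ U), (if c v ∈ Fb v then Zt d x K Z y v else 0) =
          ∑ v ∈ univ.filter (fun v => v ∉ U),
            |gg2 G d x K g Fb Z (Sum.inr (Sum.inr y)) (c v) v| := by
        refine sum_congr rfl fun v _ => ?_
        simp only [gg2]
        split_ifs
        · rw [abs_of_nonneg (hZt y v)]
        · rw [abs_zero]
      have h8 : ∑ b, ∑ v, |gg2 G d x K g Fb Z (Sum.inr (Sum.inr y)) b v| ≤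
          d / (x : ℝ) ^ B := by
        rw [sum_comm]
        have h9 : ∀ v, ∑ b, |gg2 G d x K g Fb Z (Sum.inr (Sum.inr y)) b v| ≤
            Zt d x K Z y v * (d / (x : ℝ) ^ B) := by
          intro v
          have h10 : ∀ b, |gg2 G d x K g Fb Z (Sum.inr (Sum.inr y)) b v| =
              if b ∈ Fb v then Zt d x K Z y v else 0 := by
            intro b
            simp only [gg2]
            split_ifs
            · rw [abs_of_nonneg (hZt y v)]
            · rw [abs_zero]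
          rw [sum_congr rfl fun b _ => h10 b, sum_ite_mem, univ_inter, sum_const, nsmul_eq_mul,
            mul_comm]
          exact mul_le_mul_of_nonneg_left (hFb v) (hZt y v)
        refine (sum_le_sum fun v _ => h9 v).trans ?_
        rw [← sum_mul]
        have h10 : 0 ≤ (d : ℝ) / (x : ℝ) ^ B := by positivity
        nlinarith
      have h9 : 1 / (d : ℝ) * ∑ b, ∑ v, |gg2 G d x K g Fb Z (Sum.inr (Sum.inr y)) b v| ≤
          1 / (x : ℝ) ^ B := by
        calc 1 / (d : ℝ) * ∑ b, ∑ v, |gg2 G d x K g Fb Z (Sum.inr (Sum.inr y)) b v| ≤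
            1 / (d : ℝ) * (d / (x : ℝ) ^ B) := mul_le_mul_of_nonneg_left h8 (by positivity)
          _ = 1 / (x : ℝ) ^ B := by
              field_simp
      rw [h7]
      linarith
    have h6 : ((Z y ∩ U').card : ℝ) * (1 / mx) ≤ 1 / (x : ℝ) ^ (C + 2 * K1 + 7) := by
      rw [← h1]
      have h7 : (4 : ℝ) / (x : ℝ) ^ B = 4 * (1 / (x : ℝ) ^ B) := by ring
      rw [h7] at h3
      have h8 : (0 : ℝ) ≤ 1 / (x : ℝ) ^ B := by positivity
      linarith
    rw [mul_one_div, div_le_iff₀ hmx0] at h6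
    refine h6.trans ?_
    rw [div_mul_eq_mul_div, one_mul]
    exact div_le_div_of_nonneg_right hmxle (hpow _).le
  -- sublists
  obtain ⟨s, s1, s2, s3, s4, s5⟩ := hS G d x P J R Y S g Q Z U' L hx2 hlog hxN2 hP hP0 hdeg2' hi
    hii hSig.sup hSig.le hSig.card hSig.mul hiii hUpt hCap hiv
  -- small sublists
  have hl0 : 0 < 32 * x ^ (C + 3) := Nat.mul_pos (by norm_num) (Nat.pow_pos (by omega))
  have hld : 32 * x ^ (C + 3) ≤ d := by
    refine le_trans ?_ hxN
    calc 32 * x ^ (C + 3) ≤ x * x ^ (C + 3) := Nat.mul_le_mul_right _ (by omega)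
      _ = x ^ (C + 4) := by ring
      _ ≤ _ := Nat.pow_le_pow_right (by omega) (by omega)
  have hxd : x ≤ d := by
    refine le_trans ?_ hxN
    calc x = x ^ 1 := (pow_one x).symm
      _ ≤ _ := Nat.pow_le_pow_right (by omega) (by omega)
  have hxdr : (x : ℝ) ≤ d := by exact_mod_cast hxd
  have hlog100 : 100 ≤ Real.log d := by
    rw [Real.le_log_iff_exp_le hd0]
    refine (Nat.le_ceil _).trans (le_trans ?_ hxdr)
    have : ⌈Real.exp 100⌉₊ ≤ x := by omega
    exact_mod_cast this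
  set mm : ℕ := ⌈1000 * Real.log d⌉₊ with hmm
  have hm1 : 1000 * Real.log d ≤ mm := Nat.le_ceil _
  have hm2 : (mm : ℝ) ≤ 1000 * Real.log d + 1 :=
    (Nat.ceil_lt_add_one (show 0 ≤ 1000 * Real.log d by linarith)).le
  have hx2000 : (2000 : ℝ) ≤ x := by
    have : 2000 ≤ x := by omega
    exact_mod_cast this
  have hmd : mm ≤ d := by
    have h1 : (mm : ℝ) ≤ d := by
      have h2 : (x : ℝ) ^ 2 ≤ d := by
        have h3 : x ^ 2 ≤ d := (Nat.pow_le_pow_right (by omega) (by omega)).trans hxN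
        exact_mod_cast h3
      nlinarith
    exact_mod_cast h1
  have hd3 : d3 ≤ d := by omega
  obtain ⟨hh, hh1, hh2⟩ := hH G d P (32 * x ^ (C + 3)) mm Z U' s hd3 hl0 hld hP hdeg2' hCap hm1 hmd
    (fun v hv b => by
      have h1 := s2 v hv b
      omega)
    (fun y b => (s5 y b).trans (mul_le_mul_of_nonneg_right (by
      push_cast
      have := hpow (C + 3)
      linarith) (by positivity)))
  have hmm0 : 0 < mm := by
    have h1 : (0 : ℝ) < mm := by linarith
    exact_mod_cast h1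
  obtain ⟨f0, hf0⟩ := hL G P (32 * mm) mm U' (fun v i => s v (hh v i))
    (Nat.mul_pos (by norm_num) hmm0) le_rfl hh1
  set f : V → Fin (32 * x ^ (C + 3)) := fun v => hh v (f0 v) with hfdef
  have hf : ∀ v ∈ U', ∀ w ∈ U', G.Adj v w → s v (f v) ≠ s w (f w) := hf0
  set c' : V → Fin P := fun v => if v ∈ U' then s v (f v) else c v with hc'
  have hcU : ∀ v, v ∈ U' → c' v = s v (f v) := fun v hv => if_pos hv
  have hcN : ∀ v, v ∉ U' → c' v = c v := fun v hv => if_neg hv
  have hsL : ∀ v ∈ U', c' v ∉ Fb v ∧ ∀ w ∈ nb G v, w ∉ U' → c w ≠ c' v := by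
    intro v hv
    rw [hcU v hv]
    have := s1 v hv (f v)
    simp only [hLdef, mem_filter, mem_univ, true_and] at this
    exact this
  -- the sum over U'
  have hU4 : ∀ j, ∑ v ∈ U', |g j (c' v) v| ≤ 1 / (4 * x) := by
    intro j
    refine le_trans (sum_le_sum fun v hv => ?_) (s3 j)
    rw [hcU v hv]
    exact single_le_sum (f := fun i => |g j (s v i) v|) (fun i _ => abs_nonneg _)
      (mem_univ (f v))
  have hxx : (1 : ℝ) / (4 * x) = 1 / x / 4 := by
    field_simp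
  have h1x : (0 : ℝ) < 1 / x := by positivity
  set c1 : V → Fin P := fun v => if v ∉ U ∧ v ∉ Bd then c v else c' v with hc1
  have hBU : Bd ⊆ U' := subset_union_right
  have c1N : ∀ v, v ∉ U → v ∉ Bd → c1 v = c v := fun v h1 h2 => if_pos ⟨h1, h2⟩
  have c1U : ∀ v, v ∈ U ∪ Bd → c1 v = c' v := fun v h => if_neg (by
    rw [mem_union] at h
    tauto)
  have hUB : U ∪ Bd ⊆ U' := union_subset hUU hBU
  have hUB4 : ∀ j, ∑ v ∈ U ∪ Bd, |g j (c' v) v| ≤ 1 / (4 * x) := fun j =>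
    (sum_le_sum_of_subset_of_nonneg hUB fun v _ _ => abs_nonneg _).trans (hU4 j)
  refine ⟨c', c1, ?_, ?_, ?_, ?_, ?_, ?_, ?_, ?_⟩
  · intro v w hvw
    by_cases hv : v ∈ U'
    · by_cases hw : w ∈ U'
      · rw [hcU v hv, hcU w hw]
        exact hf v hv w hw hvw
      · rw [hcN w hw]
        exact ((hsL v hv).2 w (by simpa [nb] using hvw) hw).symm
    · by_cases hw : w ∈ U'
      · rw [hcN v hv]
        exact (hsL w hw).2 v (by simpa [nb] using hvw.symm) hv
      · rw [hcN v hv, hcN w hw]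
        exact i1 v w ((hU'mem v).1 hv).1.1 ((hU'mem w).1 hw).1.1 hvw
  · intro v
    by_cases hv : v ∈ U'
    · exact (hsL v hv).1
    · rw [hcN v hv]
      exact ((hU'mem v).1 hv).1.2
  · intro v hv
    by_cases h1 : v ∈ U ∪ Bd
    · exact absurd (c1U v h1) hv
    · rw [mem_union, not_or] at h1
      rw [c1N v h1.1 h1.2]
      by_contra h2
      have h3 := (hU'mem v).2 ⟨⟨h1.1, h2⟩, h1.2⟩
      exact hv (by rw [c1N v h1.1 h1.2, hcN v h3])
  · intro j
    have h1 := n5 j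
    have h2 : ∀ b, |∑ v ∈ univ.filter (fun v => c1 v = b), g j b v| ≤
        |∑ v ∈ univ.filter (fun v => v ∉ U ∧ c v = b), g j b v| +
          (∑ v ∈ Bd, if c v = b then |g j b v| else 0) +
          ∑ v ∈ U ∪ Bd, if c' v = b then |g j b v| else 0 := by
      intro b
      have h3 : ∑ v ∈ univ.filter (fun v => c1 v = b), g j b v =
          ∑ v ∈ univ.filter (fun v => v ∉ U ∧ c v = b), g j b v -
            (∑ v ∈ Bd, if c v = b then g j b v else 0) +
            ∑ v ∈ U ∪ Bd, if c' v = b then g j b v else 0 := by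
        rw [sum_filter, sum_filter]
        have h4' : ∑ v ∈ Bd, (if c v = b then g j b v else 0) =
            ∑ v, if v ∈ Bd then (if c v = b then g j b v else 0) else 0 := by
          rw [sum_ite_mem, univ_inter]
        have h4 : ∑ v ∈ U ∪ Bd, (if c' v = b then g j b v else 0) =
            ∑ v, if v ∈ U ∪ Bd then (if c' v = b then g j b v else 0) else 0 := by
          rw [sum_ite_mem, univ_inter]
        rw [h4, h4', ← sum_sub_distrib, ← sum_add_distrib]
        refine sum_congr rfl fun v _ => ?_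
        by_cases hv : v ∈ U
        · have hvB : v ∉ Bd := fun h => j1 v h hv
          rw [if_neg (show ¬ (v ∉ U ∧ c v = b) from fun h => h.1 hv), if_neg hvB,
            if_pos (mem_union_left _ hv), c1U v (mem_union_left _ hv), sub_self, zero_add]
        · by_cases hvB : v ∈ Bd
          · rw [if_pos hvB, if_pos (mem_union_right _ hvB), c1U v (mem_union_right _ hvB)]
            simp only [hv, not_false_eq_true, true_and, sub_self, zero_add]
          · rw [if_neg hvB, if_neg (show v ∉ U ∪ Bd by rw [mem_union]; tauto), c1N v hv hvB]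
            simp only [hv, not_false_eq_true, true_and, sub_zero, add_zero]
      have habs : ∀ (W : Finset V) (p : V → Prop) [DecidablePred p] (F : V → ℝ),
          |∑ v ∈ W, if p v then F v else 0| ≤ ∑ v ∈ W, if p v then |F v| else 0 := by
        intro W p _ F
        refine (abs_sum_le_sum_abs _ _).trans (sum_le_sum fun v _ => ?_)
        split_ifs
        · exact le_rfl
        · rw [abs_zero]
      rw [h3]
      refine (abs_add_le _ _).trans (add_le_add ?_ (habs (U ∪ Bd) (fun v => c' v = b) (g j b)))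
      exact (abs_sub _ _).trans (add_le_add le_rfl (habs Bd (fun v => c v = b) (g j b)))
    have h3 : ∑ b, ∑ v ∈ U ∪ Bd, (if c' v = b then |g j b v| else 0) =
        ∑ v ∈ U ∪ Bd, |g j (c' v) v| := by
      rw [sum_comm]
      refine sum_congr rfl fun v _ => ?_
      rw [Finset.sum_ite_eq, if_pos (mem_univ _)]
    have h3B : ∑ b, ∑ v ∈ Bd, (if c v = b then |g j b v| else 0) =
        ∑ v ∈ Bd, |g j (c v) v| := by
      rw [sum_comm]
      refine sum_congr rfl fun v _ => ?_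
      rw [Finset.sum_ite_eq, if_pos (mem_univ _)]
    have h6 : ∑ b, |∑ v ∈ univ.filter (fun v => c1 v = b), g j b v| ≤
        ∑ b, |∑ v ∈ univ.filter (fun v => v ∉ U ∧ c v = b), g j b v| +
          ∑ v ∈ Bd, |g j (c v) v| + ∑ v ∈ U ∪ Bd, |g j (c' v) v| := by
      rw [← h3, ← h3B, ← sum_add_distrib, ← sum_add_distrib]
      exact sum_le_sum fun b _ => h2 b
    have h7 := hUB4 j
    have h8 := n7 j
    linarith
  · intro j
    have h1 := n6 j
    have h2 : ∑ v, |g j (c1 v) v| = ∑ v ∈ univ.filter (fun v => v ∉ U ∪ Bd), |g j (c v) v| +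
        ∑ v ∈ U ∪ Bd, |g j (c' v) v| := by
      have h3 := sum_filter_add_sum_filter_not univ (fun v => v ∈ U ∪ Bd)
        (fun v => |g j (c1 v) v|)
      rw [← h3, add_comm]
      congr 1
      · refine sum_congr rfl fun v hv => ?_
        have h4 := (mem_filter.1 hv).2
        rw [mem_union, not_or] at h4
        rw [c1N v h4.1 h4.2]
      · refine sum_congr ?_ fun v hv => ?_
        · ext v
          simp
        · rw [c1U v hv]
    have h3 : ∑ v ∈ univ.filter (fun v => v ∉ U ∪ Bd), |g j (c v) v| ≤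
        ∑ v ∈ univ.filter (fun v => v ∉ U), |g j (c v) v| := by
      refine sum_le_sum_of_subset_of_nonneg ?_ fun v _ _ => abs_nonneg _
      intro v hv
      have h4 := (mem_filter.1 hv).2
      rw [mem_union, not_or] at h4
      exact mem_filter.2 ⟨mem_univ _, h4.1⟩
    have h7 := hUB4 j
    rw [h2]
    linarith
  · intro j
    refine le_trans (sum_le_sum_of_subset_of_nonneg (t := U') ?_ fun v _ _ => abs_nonneg _) ?_
    · intro v hv
      have h1 := (mem_filter.1 hv).2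
      by_contra h2
      have h3 := (hU'mem v).1 h2
      exact h1 (by rw [c1N v h3.1.1 h3.2, hcN v h2])
    · have := hU4 j
      linarith
  · intro q
    have h1 := i7 q
    have h2 := s4 q
    have h3 : (Q q).filter (fun y => c' y.2 = y.1 ∨ c1 y.2 = y.1) ⊆
        (Q q).filter (fun y => y.2 ∉ U ∧ c y.2 = y.1) ∪
        (((U' ×ˢ (univ : Finset (Fin (32 * x ^ (C + 3))))).filter
          (fun y => (s y.1 y.2, y.1) ∈ Q q)).image (fun y => (s y.1 y.2, y.1))) := by
      rintro ⟨b, v⟩ hy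
      rw [mem_filter] at hy
      obtain ⟨hy1, hy2⟩ := hy
      simp only at hy2
      have hy3 : c' v = b ∨ (v ∉ U ∧ c v = b) := by
        rcases hy2 with hy2 | hy2
        · exact Or.inl hy2
        · by_cases h4 : v ∈ U ∪ Bd
          · rw [c1U v h4] at hy2
            exact Or.inl hy2
          · rw [mem_union, not_or] at h4
            rw [c1N v h4.1 h4.2] at hy2
            exact Or.inr ⟨h4.1, hy2⟩
      rw [mem_union]
      rcases hy3 with hy2 | hy2
      swap
      · exact Or.inl (mem_filter.2 ⟨hy1, hy2⟩)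
      by_cases hv : v ∈ U'
      · right
        rw [hcU v hv] at hy2
        rw [mem_image]
        refine ⟨(v, f v), ?_, ?_⟩
        · rw [mem_filter, mem_product]
          refine ⟨⟨hv, mem_univ _⟩, ?_⟩
          simp only [hy2]
          exact hy1
        · simp only [hy2]
      · left
        rw [hcN v hv] at hy2
        exact mem_filter.2 ⟨hy1, ((hU'mem v).1 hv).1.1, hy2⟩
    have h4 : (((Q q).filter (fun y => c' y.2 = y.1 ∨ c1 y.2 = y.1)).card : ℝ) ≤
        (((Q q).filter (fun y => y.2 ∉ U ∧ c y.2 = y.1)).card : ℝ) +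
        (((U' ×ˢ (univ : Finset (Fin (32 * x ^ (C + 3))))).filter
          (fun y => (s y.1 y.2, y.1) ∈ Q q)).card : ℝ) := by
      exact_mod_cast (card_le_card h3).trans ((card_union_le _ _).trans
        (Nat.add_le_add_left card_image_le _))
    have h5 : (x : ℝ) ^ C1 ≤ (x : ℝ) ^ (C1 + C2) := pow_le_pow_right₀ (by linarith) (by omega)
    have h6 : (x : ℝ) ^ C2 ≤ (x : ℝ) ^ (C1 + C2) := pow_le_pow_right₀ (by linarith) (by omega)
    have h7 : (x : ℝ) ^ (C1 + C2 + 1) = (x : ℝ) ^ (C1 + C2) * x := by ring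
    rw [h7]
    nlinarith [hpow (C1 + C2)]
  · intro y b
    have h1 := j5 y b
    have h2 := hh2 y b
    have h3 : (Z y).filter (fun v => c' v = b) ⊆
        (Z y).filter (fun v => v ∉ U ∧ v ∉ Bd ∧ c v = b) ∪
        ((((Z y ∩ U') ×ˢ (univ : Finset (Fin (32 * mm)))).filter
          (fun p => s p.1 (hh p.1 p.2) = b)).image (fun p => p.1)) := by
      intro v hv
      rw [mem_filter] at hv
      rw [mem_union]
      by_cases hvU : v ∈ U'
      · right
        rw [mem_image]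
        refine ⟨(v, f0 v), ?_, rfl⟩
        rw [mem_filter, mem_product, mem_inter]
        refine ⟨⟨⟨hv.1, hvU⟩, mem_univ _⟩, ?_⟩
        have h4 := hv.2
        rw [hcU v hvU] at h4
        exact h4
      · left
        have h4 := (hU'mem v).1 hvU
        rw [mem_filter]
        have h5 := hv.2
        rw [hcN v hvU] at h5
        exact ⟨hv.1, h4.1.1, h4.2, h5⟩
    have h4 : (((Z y).filter (fun v => c' v = b)).card : ℝ) ≤
        (((Z y).filter (fun v => v ∉ U ∧ v ∉ Bd ∧ c v = b)).card : ℝ) +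
        ((((Z y ∩ U') ×ˢ (univ : Finset (Fin (32 * mm)))).filter
          (fun p => s p.1 (hh p.1 p.2) = b)).card : ℝ) := by
      exact_mod_cast (card_le_card h3).trans ((card_union_le _ _).trans
        (Nat.add_le_add_left card_image_le _))
    have h5 : 0 ≤ 1 + ((Z y).card : ℝ) / d := by positivity
    have h6 : 200000 * (Real.log d + 1) + 64 * mm ≤ Real.log d ^ 4 := by
      have h7 : Real.log d * 1000000 ≤ Real.log d ^ 4 := by
        have h8 : Real.log d ^ 4 = Real.log d * Real.log d ^ 3 := by ring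
        rw [h8]
        apply mul_le_mul_of_nonneg_left _ (by linarith)
        have h9 : (100 : ℝ) ^ 3 ≤ Real.log d ^ 3 := pow_le_pow_left₀ (by norm_num) hlog100 3
        norm_num at h9 ⊢
        linarith
      linarith
    calc (((Z y).filter (fun v => c' v = b)).card : ℝ) ≤ _ := h4
      _ ≤ 200000 * (Real.log d + 1) * (1 + ((Z y).card : ℝ) / d) +
          64 * mm * (1 + ((Z y).card : ℝ) / d) := add_le_add h1 h2
      _ = (200000 * (Real.log d + 1) + 64 * mm) * (1 + ((Z y).card : ℝ) / d) := by ring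
      _ ≤ Real.log d ^ 4 * (1 + ((Z y).card : ℝ) / d) := mul_le_mul_of_nonneg_right h6 h5

/-- `Stmt_OWN2F`, unconditional. -/
theorem own2f : Stmt_OWN2F.{u} := by
  have hL : Pool.Agent.Work.MP_db9399_all.Stmt_LLLI.{u} :=
    Pool.Agent.Work.MP_db9399_all.stmt_LLLI
  have hSYM : Stmt_SYM.{u} := Pool.Agent.Work.MP_db9399_ow.helper21.stmt_SYM hL
  have hLSTL : Stmt_LSTL.{u} := Pool.Agent.Work.MP_db9399_ow.helper21.stmt_LSTL hL
  have hOFFX : Stmt_OFFX.{u} := Pool.Agent.Work.MP_db9399_ow.helper44.stmt_OFFX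
  have hPNB : Stmt_PNB := Pool.Agent.Work.MP_db9399_ow.helper44.stmt_PNB
  have hVAR : Stmt_VAR.{u} :=
    Pool.Agent.Work.MP_db9399_ow.helper12.stmt_VAR Pool.Agent.Work.MP_db9399_ow.helper20.stmt_LOCP
      Pool.Agent.Work.MP_db9399_ow.helper79.stmt_LOC2
      Pool.Agent.Work.MP_db9399_ow.helper23.stmt_COVB hPNB
  have hSGN : Stmt_SGN.{u} := Pool.Agent.Work.MP_db9399_ow.helper79.stmt_SGN hOFFX
    Pool.Agent.Work.MP_db9399_ow.helper20.stmt_LOCP hVAR
  have hMLT : Stmt_MLT.{u} := Pool.Agent.Work.MP_db9399_ow.helper79.stmt_MLT hOFFX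
  have hBATCH : Stmt_BATCH2.{u} :=
    Pool.Agent.Work.MP_db9399_owc.helper72.stmt_BATCH2 hSYM hOFFX
      (Pool.Agent.Work.MP_db9399_ow.helper20.stmt_DEV hOFFX
        Pool.Agent.Work.MP_db9399_ow.helper20.stmt_LOCP) hSGN hMLT
      Pool.Agent.Work.MP_db9399_ow.helper14.stmt_TWO hPNB
      Pool.Agent.Work.MP_db9399_owc.helper79.stmt_OVL
  have hITER : Stmt_ITER2.{u} :=
    Pool.Agent.Work.MP_db9399_owc.helper89.stmt_ITER2 hBATCH Pool.Agent.Work.MP_db9399_ow.helper59.stmt_STPI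
      Pool.Agent.Work.MP_db9399_ow.helper59.stmt_STPO
      Pool.Agent.Work.MP_db9399_ow.helper59.stmt_STPC hPNB
  exact own2f_of hITER (Pool.Agent.Work.MP_db9399_owc.helper68.stmt_SUBL2 hSYM)
    (Pool.Agent.Work.MP_db9399_owc.helper79.stmt_SSUB hSYM) hLSTL

end Pool.Agent.Work.MP_db9399_h.helper35
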